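import Mathlib
import Pool.Agent.Lib.helper3.KreissW
import Pool.Agent.Lib.helper3.KreissS

namespace Pool.Agent.Results.MP_45ac3c_an.Exponent

open Pool.Agent.Lib.H3Kreiss Filter

section
variable {H : Type} [NormedAddCommGroup H] [InnerProductSpace ℂ H]

/-- Condition `(R_α)`. -/
def Res (α : ℝ) (T : H →L[ℂ] H) : Prop :=
  spectrum ℂ T ⊆ Metric.closedBall 0 1 ∧
    ∃ c : ℝ, 0 < c ∧ ∀ z : ℂ, 1 < ‖z‖ → ‖z‖ ≤ 2 → ‖resolvent T z‖ ≤ c / (‖z‖ - 1) ^ α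

/-- `sup_n ‖Tⁿ‖ / (1+n)^γ < ∞`. -/
def Growth (γ : ℝ) (T : H →L[ℂ] H) : Prop :=
  BddAbove (Set.range fun n : ℕ => ‖T ^ n‖ / (1 + (n : ℝ)) ^ γ)

end

/-- Every Hilbert space operator satisfying `(R_α)` has powers `O((1+n)^γ)`. -/
def Admissible (α γ : ℝ) : Prop :=
  ∀ (H : Type) [NormedAddCommGroup H] [InnerProductSpace ℂ H] [CompleteSpace H] (T : H →L[ℂ] H),
    Res α T → Growth γ T

/-- The optimal exponent `γ(α)`. -/
noncomputable def gam (α : ℝ) : ℝ := sInf {γ : ℝ | 0 ≤ γ ∧ Admissible α γ}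

/-- Some Hilbert space operator with `(R_α)` has `‖Tⁿ‖ ≥ (1+n)^β` for all `n`. -/
def Attained (α β : ℝ) : Prop :=
  ∃ (H : Type) (_ : NormedAddCommGroup H) (_ : InnerProductSpace ℂ H) (_ : CompleteSpace H)
    (T : H →L[ℂ] H), Res α T ∧ ∀ n : ℕ, (1 + (n : ℝ)) ^ β ≤ ‖T ^ n‖

lemma upper {α : ℝ} : Admissible α α := by
  rintro H _ _ _ T ⟨h1, c, hc, h2⟩
  refine ⟨c * 3, ?_⟩
  rintro _ ⟨n, rfl⟩
  have p0 : (0 : ℝ) < 1 + n := by positivity
  have p1 : (0 : ℝ) < 1 / (1 + n) := by positivity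
  have p2 : 1 / (1 + (n : ℝ)) ≤ 1 := by rw [div_le_one p0]; simp
  have := pow_le h1 (ρ := 1 + 1 / (1 + n)) (K := c * (1 + (n : ℝ)) ^ α) (by linarith)
    (fun z hz => by
      have := h2 z (by linarith) (by linarith)
      rwa [hz, add_sub_cancel_left, Real.div_rpow zero_le_one p0.le, Real.one_rpow,
        div_div_eq_mul_div, div_one] at this) n
  have q : (1 + 1 / (1 + (n : ℝ))) ^ (n + 1) ≤ 3 := by
    calc _ ≤ Real.exp (1 / (1 + n)) ^ (n + 1) := by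
          gcongr; linarith [Real.add_one_le_exp (1 / (1 + (n : ℝ)))]
      _ = Real.exp 1 := by
          rw [← Real.exp_nat_mul]; congr 1; push_cast; field_simp; ring
      _ ≤ 3 := by linarith [Real.exp_one_lt_d9]
  simp only
  rw [div_le_iff₀ (by positivity)]
  calc _ ≤ c * (1 + (n : ℝ)) ^ α * 3 := this.trans (by gcongr)
    _ = _ := by ring

lemma attained_of {α β : ℝ} (K : ℝ → ℝ) (hK : ∀ ρ, 1 < ρ → 0 ≤ K ρ) {c : ℝ} (hc : 0 < c)
    (h1 : ∀ ρ, 1 < ρ → ρ ≤ 2 → K ρ ≤ c / (ρ - 1) ^ α)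
    (h2 : ∀ N (z : ℂ), 1 < ‖z‖ → ‖resolvent (WS N β) z‖ ≤ K ‖z‖) : Attained α β := by
  obtain ⟨D, d1, d2, d3⟩ := sum_res (E := fun N : ℕ => EuclideanSpace ℂ (Fin (N + 1)))
    (fun N => WS (N + 1) β) K hK fun N z hz =>
      ⟨(WS_res _ β (by rintro rfl; norm_num at hz)).1, h2 _ z hz⟩
  refine ⟨_, inferInstance, inferInstance, inferInstance, D,
    ⟨d1, c, hc, fun z hz hz' => (d2 z hz).trans (h1 _ hz hz')⟩, fun n => ?_⟩
  have := (WS_pow n β).trans (d3 n n)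
  rwa [Nat.cast_succ, add_comm] at this

lemma attained_one {β : ℝ} (h0 : 0 < β) (h1 : β < 1) : Attained 1 β := by
  have : 0 < 1 - β := by linarith
  exact attained_of (fun ρ => (1 + 40 * β / (1 - β)) / (ρ - 1))
    (fun ρ hρ => div_nonneg (by positivity) (by linarith)) (c := 1 + 40 * β / (1 - β))
    (by positivity) (fun ρ _ _ => by rw [Real.rpow_one]) fun N z hz => main1 h0 h1 N hz

lemma attained_self {α : ℝ} (h1 : 1 < α) : Attained α α := by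
  have hz : 0 ≤ ∑' k : ℕ, 1 / (k : ℝ) ^ α := tsum_nonneg fun _ => by positivity
  have h0 : 0 < α := by linarith
  refine attained_of
    (fun ρ => 2 ^ α * (1 / (ρ - 1) + α ^ α * (1 + 1 / (ρ - 1) ^ α) * ∑' k : ℕ, 1 / (k : ℝ) ^ α))
    (fun ρ hρ => by have : 0 < ρ - 1 := by linarith
                    positivity)
    (c := 2 ^ α * (1 + α ^ α * 2 * ∑' k : ℕ, 1 / (k : ℝ) ^ α)) (by positivity)
    (fun ρ hρ hρ' => ?_) fun N z hz => main2 h1 N hz
  have p0 : 0 < ρ - 1 := by linarith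
  have p1 := Real.rpow_pos_of_pos p0 α
  have p2 : (ρ - 1) ^ α ≤ ρ - 1 := by
    simpa using Real.rpow_le_rpow_of_exponent_ge p0 (by linarith) h1.le
  have p3 : 1 / (ρ - 1) ≤ 1 / (ρ - 1) ^ α := one_div_le_one_div_of_le p1 p2
  have p4 : 1 ≤ 1 / (ρ - 1) ^ α := by rw [le_div_iff₀ p1]; linarith
  calc _ ≤ 2 ^ α * (1 / (ρ - 1) ^ α + α ^ α * (1 / (ρ - 1) ^ α + 1 / (ρ - 1) ^ α) *
        ∑' k : ℕ, 1 / (k : ℝ) ^ α) := by gcongr
    _ = _ := by ring

lemma le_of {α β γ : ℝ} (h1 : Attained α β) (h2 : Admissible α γ) : β ≤ γ := by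
  obtain ⟨H, _, _, _, T, hT, hn⟩ := h1
  obtain ⟨C, hC⟩ := h2 H T hT
  by_contra hc
  have t1 : Tendsto (fun n : ℕ => (1 + (n : ℝ)) ^ (β - γ)) atTop atTop :=
    (tendsto_rpow_atTop (by linarith)).comp
      (tendsto_atTop_add_const_left _ _ tendsto_natCast_atTop_atTop)
  obtain ⟨n, h⟩ := (t1.eventually_gt_atTop C).exists
  have := hC ⟨n, rfl⟩
  rw [Real.rpow_sub (by positivity)] at h
  exact absurd (h.trans_le (div_le_div_of_nonneg_right (hn n) (by positivity))) (not_lt.2 this)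

/-- `γ(α) = α` for every `α ≥ 1`; the bound `O((1+n)^α)` holds, and for `α > 1` it is attained. -/
theorem result (α : ℝ) (hα : 1 ≤ α) :
    gam α = α ∧ Admissible α α ∧ (1 < α → Attained α α) := by
  have hu := upper (α := α)
  refine ⟨IsLeast.csInf_eq ⟨⟨by linarith, hu⟩, fun γ hγ => ?_⟩, hu, attained_self⟩
  rcases hα.eq_or_lt with rfl | h
  · by_contra hc
    have h0 := hγ.1
    have := le_of (attained_one (β := (1 + γ) / 2) (by linarith) (by linarith)) hγ.2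
    linarith
  · exact le_of (attained_self h) hγ.2

end Pool.Agent.Results.MP_45ac3c_an.Exponent
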